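import Pool.Agent.VMX.StmtsB
import Pool.Agent.Helper60_PFS.Simp

/-!
VMX row THA: Theorem A (assembly).
-/

set_option autoImplicit false

open Matrix Filter Topology

namespace Pool.Agent.VMX.H71

open Pool.Agent.PFS Pool.Agent.PFJ Pool.Agent.NBT Pool.Agent.VMX

/-- a basis of a slice of maximal dimension which consists of moves -/
theorem tha_bs {n K : ℕ} {C : Set (V n)} {Γ Γ₀ : Subgroup (GL (Fin n) ℝ)} {p : Fin K}
    {J : Finset (Fin K)} {c : Fin K → ℕ} {F : (Fin K → V n) → Prop} (h : SL C Γ Γ₀ p J c F)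
    {z : Fin K → V n} (hz : F z) {j : Fin K} (hjp : j ≠ p)
    (hmx : ∀ z', F z' → Module.finrank ℝ (Es C F p j z') ≤ Module.finrank ℝ (Es C F p j z)) :
    ∃ (r : ℕ) (v : Fin r → V n), Bs C F p j r z v := by
  have hpes := (h.toFAM.pes z hz).1
  have hli : LinearIndependent ℝ z := Pool.Agent.PFS.H60.lin n C h.cc.toPCone (Fin K) z hpes
  have hne : z p ≠ z j := fun he => hjp (hli.injective he).symm
  have htp : Tm C F p j z (z p) := by
    refine ⟨by rw [Function.update_eq_self]; exact hz, 1, one_pos, ?_⟩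
    rw [one_smul, add_sub_cancel_left]
    exact hpes.cl j
  have hpS : z p ∈ ({z j} ∪ {v | Tm C F p j z v} : Set (V n)) := Or.inr htp
  have hjS : z j ∈ ({z j} ∪ {v | Tm C F p j z v} : Set (V n)) := Or.inl rfl
  have hs : LinearIndepOn ℝ id ({z p, z j} : Set (V n)) := by
    have h1 : LinearIndepOn ℝ z ({p, j} : Set (Fin K)) := hli.linearIndepOn _
    have h2 := h1.id_image
    rwa [Set.image_pair] at h2
  have hsub : ({z p, z j} : Set (V n)) ⊆ {z j} ∪ {v | Tm C F p j z v} := by
    intro x hx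
    rcases hx with rfl | hx
    · exact hpS
    · rw [Set.mem_singleton_iff] at hx
      rw [hx]; exact hjS
  obtain ⟨b, hbS, hsb, hSb, hbli⟩ := exists_linearIndepOn_id_extension hs hsub
  have hbfin : b.Finite := hbli.setFinite
  classical
  set B : Finset (V n) := hbfin.toFinset with hB
  have hpB : z p ∈ B := by rw [hB, Set.Finite.mem_toFinset]; exact hsb (Or.inl rfl)
  have hjB : z j ∈ B := by rw [hB, Set.Finite.mem_toFinset]; exact hsb (Or.inr rfl)
  set B' : Finset (V n) := (B.erase (z p)).erase (z j) with hB'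
  have hcard : B'.card + 2 = B.card := by
    have h1 : z j ∈ B.erase (z p) := Finset.mem_erase.2 ⟨fun he => hne he.symm, hjB⟩
    have h2 := Finset.card_erase_add_one h1
    have h3 := Finset.card_erase_add_one hpB
    rw [hB']
    omega
  obtain ⟨r, v, hr, hvinj, hvmem⟩ : ∃ (r : ℕ) (v : Fin r → V n), r + 2 = B.card ∧
      Function.Injective v ∧ ∀ i, v i ≠ z j ∧ v i ≠ z p ∧ v i ∈ b := by
    refine ⟨B'.card, fun i => ((B'.equivFin.symm i : B') : V n), hcard, ?_, ?_⟩
    · intro i i' hii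
      exact B'.equivFin.symm.injective (Subtype.ext hii)
    · intro i
      have h1 : ((B'.equivFin.symm i : B') : V n) ∈ (B.erase (z p)).erase (z j) :=
        (B'.equivFin.symm i).2
      have h2 := Finset.mem_erase.1 h1
      have h3 := Finset.mem_erase.1 h2.2
      exact ⟨h2.1, h3.1, hbfin.mem_toFinset.1 h3.2⟩
  refine ⟨r, v, ⟨hz, ?_, ?_, ?_⟩⟩
  · intro l
    rcases hbS (hvmem l).2.2 with h3 | h3
    · exact absurd h3 (hvmem l).1
    · exact h3
  · have hinj : Function.Injective (Fin.cons (z p) (Fin.cons (z j) v) : Fin (r + 2) → V n) := by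
      rw [Fin.cons_injective_iff, Fin.cons_injective_iff]
      refine ⟨?_, ?_, hvinj⟩
      · rintro ⟨i, hi⟩
        revert hi
        refine Fin.cases ?_ ?_ i
        · intro hi
          rw [Fin.cons_zero] at hi
          exact hne hi.symm
        · intro i hi
          rw [Fin.cons_succ] at hi
          exact (hvmem i).2.1 hi
      · rintro ⟨i, hi⟩
        exact (hvmem i).1 hi
    have hran : ∀ i, (Fin.cons (z p) (Fin.cons (z j) v) : Fin (r + 2) → V n) i ∈ b := by
      intro i
      refine Fin.cases ?_ ?_ i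
      · rw [Fin.cons_zero]; exact hsb (Or.inl rfl)
      · intro i
        rw [Fin.cons_succ]
        refine Fin.cases ?_ ?_ i
        · rw [Fin.cons_zero]; exact hsb (Or.inr rfl)
        · intro i
          rw [Fin.cons_succ]
          exact (hvmem i).2.2
    have h1 : LinearIndependent ℝ (fun x : b => id (x : V n)) := hbli
    exact h1.comp (fun i => ⟨_, hran i⟩) (fun i i' hii => hinj (congrArg Subtype.val hii))
  · intro z' hz'
    refine le_trans (hmx z' hz') ?_
    rw [hr]
    have h1 : Es C F p j z = Submodule.span ℝ (B : Set (V n)) := by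
      rw [hB, Set.Finite.coe_toFinset]
      exact le_antisymm (Submodule.span_le.2 hSb) (Submodule.span_mono hbS)
    rw [h1]
    exact finrank_span_finset_le_card B

/-- THA. -/
theorem tha (hqmf : QmfStmt) (hsln : SlnStmt) (hbre : BreStmt) (hzbx : ZbxStmt)
    (hfls : FlsStmt) : ThaStmt := by
  intro n C Γ hCC K hK hmax hw p
  have key : ∀ J : Finset (Fin K), p ∉ J → ∃ c : Fin K → ℕ,
      SL C Γ Γ p J c (QM C Γ p J c) ∧ ∃ z, QM C Γ p J c z := by
    intro J
    induction J using Finset.induction_on with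
    | empty =>
      intro hp
      obtain ⟨w, hw⟩ := hw
      obtain ⟨-, h2, -, h4⟩ := hqmf n C Γ hCC K hK hmax p ∅ (fun _ => 0) hp
      refine ⟨fun _ => 0, ⟨h2, hCC, hK, hmax, hp, ?_, ?_, ?_⟩, w, (h4 w).2 hw⟩
      · intro z _ m hm; exact absurd hm (Finset.notMem_empty m)
      · intro z _ m hm; exact absurd hm (Finset.notMem_empty m)
      · intro z _ m hm; exact absurd hm (Finset.notMem_empty m)
    | insert j J hjJ ih =>
      intro hp
      have hpJ : p ∉ J := fun h => hp (Finset.mem_insert_of_mem h)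
      have hjp : j ≠ p := fun h => hp (h ▸ Finset.mem_insert_self j J)
      obtain ⟨c, hSL, z0, hz0⟩ := ih hpJ
      obtain ⟨z, hz, hmx⟩ : ∃ z, QM C Γ p J c z ∧ ∀ z', QM C Γ p J c z' →
          Module.finrank ℝ (Es C (QM C Γ p J c) p j z') ≤
            Module.finrank ℝ (Es C (QM C Γ p J c) p j z) := by
        have hne : {d : ℕ | ∃ z, QM C Γ p J c z ∧
            Module.finrank ℝ (Es C (QM C Γ p J c) p j z) = d}.Nonempty := ⟨_, z0, hz0, rfl⟩
        have hbdd : BddAbove {d : ℕ | ∃ z, QM C Γ p J c z ∧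
            Module.finrank ℝ (Es C (QM C Γ p J c) p j z) = d} := by
          refine ⟨Module.finrank ℝ (V n), ?_⟩
          rintro d ⟨z, -, rfl⟩
          exact Submodule.finrank_le _
        obtain ⟨z, hz, hzd⟩ := Nat.sSup_mem hne hbdd
        refine ⟨z, hz, fun z' hz' => ?_⟩
        rw [hzd]
        exact le_csSup hbdd ⟨z', hz', rfl⟩
      obtain ⟨r, v, hBs⟩ := tha_bs hSL hz hjp hmx
      obtain ⟨z', h', M, hBP⟩ := hbre n C Γ Γ K p J c _ hSL j r z v hjp hjJ hBs
      obtain ⟨Z, hZ, hX⟩ := hzbx n C Γ Γ K p J c _ hSL j r z' h' M hjp hjJ hBP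
      obtain ⟨S, hPP, hSZ⟩ := hfls n C Γ Γ K p J c _ hSL j (r + 2) hjp hjJ Z hZ hX
      obtain ⟨-, -, h3, -⟩ := hqmf n C Γ hCC K hK hmax p (insert j J)
        (Function.update c j (r + 2)) hp
      exact ⟨Function.update c j (r + 2),
        hsln n C Γ K p J c hSL j hjp hjJ (r + 2) hBs.mx, Z, h3 S hPP Z hSZ⟩
  obtain ⟨c, hSL, hne⟩ := key (Finset.univ.erase p) (Finset.notMem_erase p _)
  exact ⟨c, _, hSL, hne⟩

end Pool.Agent.VMX.H71
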