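import Pool.Agent.VMX.StmtsC

/-!
# VMX squad, row TPB: the top ray in the invariant face
-/

set_option autoImplicit false

open Matrix Filter Topology

namespace Pool.Agent.VMX.H71

open Pool.Agent.PFS Pool.Agent.PFJ Pool.Agent.NBT Pool.Agent.VMX

theorem gap_tpb {ι : Type*} (s : Finset ι) (f : ι → ℝ) (h : ∀ i ∈ s, 0 < f i) :
    ∃ g : ℝ, 0 < g ∧ ∀ i ∈ s, g ≤ f i := by
  classical
  induction s using Finset.induction_on with
  | empty => exact ⟨1, one_pos, by simp⟩
  | insert b s hb ih =>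
    obtain ⟨g, hg, h'⟩ := ih (fun i hi => h i (Finset.mem_insert_of_mem hi))
    refine ⟨min g (f b), lt_min hg (h b (Finset.mem_insert_self b s)), fun i hi => ?_⟩
    rcases Finset.mem_insert.1 hi with rfl | hi
    · exact min_le_right _ _
    · exact (min_le_left _ _).trans (h' i hi)

theorem sub_single_tpb {n k : ℕ} {C : Set (V n)} (h : PCone C) {w : Fin (k + 1) → V n}
    (hw : ∀ i, w i ∈ closure C) (i : Fin (k + 1)) (hi : i ≠ 0) :
    fS w {0}ᶜ - w i = fS w {0, i}ᶜ ∧ fS w {0}ᶜ - w i ∈ closure C := by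
  have hsub : ({i} : Finset (Fin (k + 1))) ⊆ {0}ᶜ := by
    intro j hj
    rw [Finset.mem_singleton] at hj
    subst hj
    simpa using hi
  have hsd : ({0}ᶜ : Finset (Fin (k + 1))) \ {i} = {0, i}ᶜ := by
    ext j
    simp only [Finset.mem_sdiff, Finset.mem_compl, Finset.mem_singleton, Finset.mem_insert]
    tauto
  have h1 := fS_add_sdiff w hsub
  rw [hsd, fS_single] at h1
  have h2 : fS w {0}ᶜ - w i = fS w {0, i}ᶜ := by rw [← h1]; abel
  refine ⟨h2, ?_⟩
  rw [h2]
  exact fS_cl h hw _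

theorem tpb (hAtd : AtdStmt) (hAtf : AtfStmt) (hUnb : UnbStmt) (hPhe : KT3.PheStmt) :
    TpbStmt := by
  intro n k C Γ hHK a i1 hi1 ha
  have hCC : CC C Γ := hHK.toCC
  have hP : PCone C := hCC.toPCone
  obtain ⟨κ, hκ, hU⟩ := hUnb n k C Γ hHK (1 / 400) (by norm_num)
  obtain ⟨g₀, hg₀, hgap⟩ := gap_tpb (Finset.univ.filter (fun i : Fin (k + 1) => i ≠ 0 ∧ i ≠ i1))
    (fun i => a i1 - a i) (by
      intro i hi
      rw [Finset.mem_filter] at hi
      have := ha i hi.2.1 hi.2.2
      linarith)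
  set D : ℝ := ((k : ℝ) + 1) * (2 * κ + 1) with hD
  have hk0 : (0 : ℝ) ≤ k := Nat.cast_nonneg k
  have hDpos : 0 < D := by positivity
  refine ⟨1 / 100, max 0 (Real.log (200 * D) / g₀), by norm_num, ?_⟩
  intro ε σ w z g s lam hε hε1 hσ hF
  have hσ0 : 0 ≤ σ := le_trans (le_max_left _ _) hσ
  have hσ1 : Real.log (200 * D) / g₀ ≤ σ := le_trans (le_max_right _ _) hσ
  set E : ℝ := Real.exp (-(g₀ * σ)) with hE
  have hEpos : 0 < E := Real.exp_pos _
  have hE1 : E * (200 * D) ≤ 1 := by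
    have h1 : Real.log (200 * D) ≤ g₀ * σ := by
      rw [div_le_iff₀ hg₀] at hσ1
      linarith
    have h2 : E ≤ Real.exp (-(Real.log (200 * D))) := by
      rw [hE]; exact Real.exp_le_exp.2 (by linarith)
    rw [Real.exp_neg, Real.exp_log (by positivity)] at h2
    calc E * (200 * D) ≤ (200 * D)⁻¹ * (200 * D) :=
          mul_le_mul_of_nonneg_right h2 (by positivity)
      _ = 1 := inv_mul_cancel₀ (by positivity)
  have hw : ∀ i, w i ∈ closure C := fun i => hF.pes.1.cl i
  set f : V n := fS w {0}ᶜ with hf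
  set R : V n := fS w {0, i1}ᶜ with hR
  have hfcl : f ∈ closure C := fS_cl hP hw _
  have hRcl : R ∈ closure C := fS_cl hP hw _
  obtain ⟨hunt, hbelow, -⟩ := fcs n C hP f hfcl
  have hBI : BI C w {0}ᶜ = Submodule.span ℝ (Face C f) := rfl
  rw [← hBI] at hunt hbelow
  have hle : ∀ i, i ≠ 0 → f - w i ∈ closure C := fun i hi => (sub_single_tpb hP hw i hi).2
  have hfR : f - w i1 = R := (sub_single_tpb hP hw i1 hi1).1
  have hfR' : f = w i1 + R := by rw [← hfR]; abel
  have hwB : w i1 ∈ BI C w {0}ᶜ := by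
    refine hbelow (w i1) (hw i1) 1 ?_
    rw [one_smul]
    exact hle i1 hi1
  obtain ⟨φ, hφ⟩ := hPhe n C Γ (k + 1) hHK w hF.pes i1
  have hφR : φ R = 0 := by
    rw [hR]
    unfold fS
    rw [map_sum]
    refine Finset.sum_eq_zero fun j hj => hφ.zero j ?_
    rintro rfl
    simp at hj
  have hφf : φ f = 1 := by rw [hfR', map_add, hφR, hφ.one, add_zero]
  -- the operator
  set H : V n →ₗ[ℝ] V n := Real.exp (-(a i1 * σ)) • sA s g with hH
  have hHap : ∀ u, H u = Real.exp (-(a i1 * σ)) • (s • act g u) := by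
    intro u
    rw [hH, LinearMap.smul_apply, sA_apply]
  have hHcl : ∀ x ∈ closure C, H x ∈ closure C := by
    intro x hx
    rw [hHap]
    exact hP.cl_smul ((hCC.sact_cl_iff hF.gm hF.s0).2 hx) (Real.exp_pos _).le
  have hHB : ∀ x ∈ BI C w {0}ᶜ, H x ∈ BI C w {0}ᶜ := by
    intro x hx
    rw [hHap]
    refine Submodule.smul_mem _ _ (Submodule.smul_mem _ _ ?_)
    have h1 : act g x ∈ img g (BI C w {0}ᶜ) := mem_img.2 ⟨x, hx, rfl⟩
    rwa [hF.inv] at h1
  have hHw : ∀ i, i ≠ 0 → H (w i) = Real.exp (-((a i1 - a i) * σ)) • z i := by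
    intro i hi
    rw [hHap, hF.ei i hi, smul_smul, ← Real.exp_add]
    congr 2
    ring
  have hHw1 : H (w i1) = z i1 := by
    rw [hHw i1 hi1]
    simp
  have hz2 : ∀ i, i ≠ 0 → (2 : ℝ) • f - z i ∈ closure C := by
    intro i hi
    have h1 := (hF.nr i hi).2.1
    rw [← hf] at h1
    have h2 : (2 : ℝ) • f - z i = (ε • f - (z i - w i)) + (f - w i) + (1 - ε) • f := by
      rw [two_smul, sub_smul, one_smul]; abel
    rw [h2]
    exact hP.cl_add (hP.cl_add h1 (hle i hi)) (hP.cl_smul hfcl (by linarith))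
  have hHR : (((k : ℝ) + 1) * (2 * E)) • f - H R ∈ closure C := by
    have h1 : ∀ i ∈ ({0, i1}ᶜ : Finset (Fin (k + 1))), (2 * E) • f - H (w i) ∈ closure C := by
      intro i hi
      simp only [Finset.mem_compl, Finset.mem_insert, Finset.mem_singleton, not_or] at hi
      have hg1 : g₀ ≤ a i1 - a i := hgap i (by simp [hi.1, hi.2])
      rw [hHw i hi.1]
      set e : ℝ := Real.exp (-((a i1 - a i) * σ)) with he
      have hepos : 0 < e := Real.exp_pos _
      have heE : e ≤ E := by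
        rw [he, hE]
        refine Real.exp_le_exp.2 ?_
        have := mul_le_mul_of_nonneg_right hg1 hσ0
        linarith
      have h2 : (2 * E) • f - e • z i = e • ((2 : ℝ) • f - z i) + (2 * (E - e)) • f := by
        rw [smul_sub, smul_smul, mul_sub, sub_smul]
        have : (e * 2) • f = (2 * e) • f := by rw [mul_comm]
        rw [this]; abel
      rw [h2]
      exact hP.cl_add (hP.cl_smul (hz2 i hi.1) hepos.le) (hP.cl_smul hfcl (by nlinarith))
    have h2 := hP.cl_sum h1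
    rw [Finset.sum_sub_distrib, Finset.sum_const, ← map_sum] at h2
    have h3 : ∑ x ∈ ({0, i1}ᶜ : Finset (Fin (k + 1))), w x = R := rfl
    rw [h3] at h2
    set c : ℕ := ({0, i1}ᶜ : Finset (Fin (k + 1))).card with hc
    have hck : (c : ℝ) ≤ (k : ℝ) + 1 := by
      have h4 : c ≤ k + 1 := by
        rw [hc]
        refine (Finset.card_le_univ _).trans ?_
        simp
      exact_mod_cast h4
    have h5 : (((k : ℝ) + 1) * (2 * E)) • f - H R
        = (c • ((2 * E) • f) - H R) + (((k : ℝ) + 1 - c) * (2 * E)) • f := by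
      rw [← Nat.cast_smul_eq_nsmul ℝ, smul_smul, sub_mul, sub_smul]
      abel
    rw [h5]
    refine hP.cl_add h2 (hP.cl_smul hfcl ?_)
    have : 0 ≤ (k : ℝ) + 1 - c := by linarith
    positivity
  have hHf : (2 + ((k : ℝ) + 1) * (2 * E)) • f - H f ∈ closure C := by
    have h1 : (2 + ((k : ℝ) + 1) * (2 * E)) • f - H f
        = ((2 : ℝ) • f - z i1) + ((((k : ℝ) + 1) * (2 * E)) • f - H R) := by
      have h2 : H f = z i1 + H R := by
        conv_lhs => rw [hfR', map_add, hHw1]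
      rw [h2, add_smul]; abel
    rw [h1]
    exact hP.cl_add (hz2 i1 hi1) hHR
  have hcoef : κ * (((k : ℝ) + 1) * (2 * E)) + (1 / 400) * (2 + ((k : ℝ) + 1) * (2 * E))
      ≤ 1 / 100 := by
    have h1 : E * (((k : ℝ) + 1) * (2 * κ + 1)) ≤ 1 / 200 := by
      rw [hD] at hE1
      linarith
    have h2 : 0 ≤ ((k : ℝ) + 1) * E := by positivity
    nlinarith
  -- domination of the unit
  have hdom : ∀ r : ℝ, 0 ≤ r → ∀ v : V n, r • (κ • R + (1 / 400 : ℝ) • f) - v ∈ closure C →
      (r / 100) • f - H v ∈ closure C := by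
    intro r hr v hv
    have h1 := hHcl _ hv
    rw [map_sub, map_smul, map_add, map_smul, map_smul] at h1
    have h2 : (r / 100) • f - H v = (r • (κ • H R + (1 / 400 : ℝ) • H f) - H v)
        + (r • (κ • ((((k : ℝ) + 1) * (2 * E)) • f - H R))
        + (r • ((1 / 400 : ℝ) • ((2 + ((k : ℝ) + 1) * (2 * E)) • f - H f))
        + (r * (1 / 100 - (κ * (((k : ℝ) + 1) * (2 * E))
          + (1 / 400) * (2 + ((k : ℝ) + 1) * (2 * E))))) • f)) := by
      module
    rw [h2]
    refine hP.cl_add h1 (hP.cl_add ?_ (hP.cl_add ?_ ?_))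
    · exact hP.cl_smul (hP.cl_smul hHR hκ.le) hr
    · exact hP.cl_smul (hP.cl_smul hHf (by norm_num)) hr
    · exact hP.cl_smul hfcl (mul_nonneg hr (by linarith))
  obtain ⟨x, lam', ψ, hA, -, hl1, hl2, hψ, -, -⟩ := hAtd n C hP (BI C w {0}ᶜ) f (w i1) φ H ε hε hε1
    hunt.1 hfcl hwB (hw i1) (hle i1 hi1) hφ.pos hφ.one hφf hHB hHcl
    (by rw [hHw1]; exact (hF.nr i1 hi1).2.1)
    (by rw [hHw1]; exact (hF.nr i1 hi1).2.2)
    (by
      intro u hu
      obtain ⟨M, hM, h1, h2⟩ := unt_two hP hunt hu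
      exact ⟨M, hM.le, h1, h2⟩)
    (by
      intro e _ r hr hφe h1 h2
      obtain ⟨h3, h4⟩ := hU w hF.pes i1 φ hi1 hφ e r hφe hr h1 h2
      refine ⟨hdom r hr e h3, ?_⟩
      have h5 := hdom r hr (-e) (by rw [sub_neg_eq_add]; exact h4)
      rwa [map_neg, sub_neg_eq_add] at h5)
  obtain ⟨hx0, -, -, -, -, hscale⟩ := hAtf n C hP _ H lam' x ψ hA
  have hA2 := hscale (Real.exp (a i1 * σ)) (Real.exp_pos _)
  have hcH : Real.exp (a i1 * σ) • H = sA s g := by
    rw [hH, smul_smul, ← Real.exp_add, add_neg_cancel, Real.exp_zero, one_smul]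
  rw [hcH] at hA2
  refine ⟨x, Real.exp (a i1 * σ) * lam', ψ, hA2, ?_, ?_, ?_⟩
  · have := Real.exp_pos (a i1 * σ); nlinarith
  · have := Real.exp_pos (a i1 * σ); nlinarith
  · -- `x ∈ LamC`
    have hHull : ∀ m : ℕ, (lam'⁻¹) ^ m • (H ^ m) (w i1) ∈ Hull C Γ := by
      have hlp : 0 < lam' := hA.pos
      have h0 : ∀ m : ℕ, (H ^ m) (w i1) ∈ Hull C Γ := by
        intro m
        induction m with
        | zero =>
          rw [pow_zero]
          exact hCC.hul.lamHull _ (hF.pes.2 i1)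
        | succ m ih =>
          rw [pow_succ', Module.End.mul_apply, hHap]
          exact hCC.hul.smul _ (hCC.hul.smul _ (hCC.hul.act _ ih g hF.gm) s hF.s0) _
            (Real.exp_pos _)
      intro m
      exact hCC.hul.smul _ (h0 m) _ (by positivity)
    have hψ0 : 0 < ψ (w i1) := by linarith
    have hfC : f ∉ C := by
      have h1 := hF.pes.1.bd (fun i => if i = 0 then 0 else 1)
        (fun i => by by_cases h : i = 0 <;> simp [h]) ⟨0, by simp⟩
      have h2 : ∑ i, (if i = 0 then (0 : ℝ) else 1) • w i = f := by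
        rw [hf]
        unfold fS
        rw [← Finset.sum_subset (Finset.subset_univ ({0}ᶜ : Finset (Fin (k + 1))))]
        · refine Finset.sum_congr rfl fun i hi => ?_
          have : i ≠ 0 := by simpa using hi
          simp [this]
        · intro i _ hi
          have : i = 0 := by simpa using hi
          simp [this]
      rwa [h2] at h1
    have hyC : ψ (w i1) • x ∉ C := by
      intro h1
      have h2 : x ∈ C := (hP.smul_iff hψ0).1 h1
      obtain ⟨M, hM, h3⟩ := hunt.2.2 x hA.mem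
      have h4 : M • f ∈ C := by
        have h5 : M • f = x + (M • f - x) := by abel
        rw [h5]
        exact hP.add_cl h2 h3
      exact hfC ((hP.smul_iff hM).1 h4)
    have hlam := Pool.Agent.PFS.H37.cloF n C Γ hCC _ _ hHull (hA.lim (w i1) hwB) hyC
      (smul_ne_zero hψ0.ne' hx0)
    have h6 := hCC.hul.lamSmul _ hlam (ψ (w i1))⁻¹ (inv_pos.2 hψ0)
    rwa [smul_smul, inv_mul_cancel₀ hψ0.ne', one_smul] at h6

end Pool.Agent.VMX.H71
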